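import Pool.Agent.Q2.CX.QP

/-!
# (QP1) implies (QP2) for conjugacy classes of twisted involutions

`(W, S)` is an arbitrary Coxeter system (Mathlib's `CoxeterSystem`, any rank, `W` finite or
infinite), `W⁺ = W ⋊ Aut(W, S)`.
-/

namespace Pool.Agent.Results.MP_2f4918_al.Quasiparabolic

open CoxeterSystem

universe u v

variable {B : Type u} {M : CoxeterMatrix B} {W : Type v} [Group W]

/-- `Aut(W, S)`: the automorphisms of `W` that map `S` onto itself. -/
def AutS (cs : CoxeterSystem M W) : Subgroup (MulAut W) where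
  carrier := {θ | θ '' Set.range cs.simple = Set.range cs.simple}
  one_mem' := by simp
  mul_mem' := by
    intro θ θ' h h'
    change θ '' Set.range cs.simple = Set.range cs.simple at h
    change θ' '' Set.range cs.simple = Set.range cs.simple at h'
    change (θ * θ') '' Set.range cs.simple = Set.range cs.simple
    rw [MulAut.coe_mul, Set.image_comp, h', h]
  inv_mem' := by
    intro θ h
    change θ '' Set.range cs.simple = Set.range cs.simple at h
    change (θ⁻¹ : MulAut W) '' Set.range cs.simple = Set.range cs.simple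
    conv_lhs => rw [← h]
    rw [← Set.image_comp]
    simp

/-- The extended group `W⁺ = W ⋊ Aut(W, S)` of pairs `⟨x, θ⟩`. -/
abbrev WPlus (cs : CoxeterSystem M W) : Type v := W ⋊[(AutS cs).subtype] (AutS cs)

/-- The inclusion `W → W⁺`. -/
abbrev inc (cs : CoxeterSystem M W) : W →* WPlus cs := SemidirectProduct.inl

/-- The length function `ℓ(x, θ) = ℓ(x)` of `W⁺`. -/
noncomputable def len (cs : CoxeterSystem M W) (x : WPlus cs) : ℕ := cs.length x.left

/-- `K` is a `W`-conjugacy class in `I⁺ = {x ∈ W⁺ : x² = 1}`. -/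
def IsClass (cs : CoxeterSystem M W) (K : Set (WPlus cs)) : Prop :=
  ∃ x : WPlus cs, x * x = 1 ∧ K = Set.range fun v : W => inc cs v * x * (inc cs v)⁻¹

/-- (QP1): if `r ∈ R`, `w ∈ K` and `ℓ(r w r) = ℓ(w)`, then `r w r = w`. -/
def QP1 (cs : CoxeterSystem M W) (K : Set (WPlus cs)) : Prop :=
  ∀ r, cs.IsReflection r → ∀ w ∈ K,
    len cs (inc cs r * w * inc cs r) = len cs w → inc cs r * w * inc cs r = w

/-- (QP2): if `r ∈ R`, `w ∈ K`, `s ∈ S`, `ℓ(r w r) > ℓ(w)` and `ℓ(s r w r s) < ℓ(s w s)`, then
`r w r = s w s`. -/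
def QP2 (cs : CoxeterSystem M W) (K : Set (WPlus cs)) : Prop :=
  ∀ r, cs.IsReflection r → ∀ w ∈ K, ∀ s ∈ Set.range cs.simple,
    len cs w < len cs (inc cs r * w * inc cs r) →
    len cs (inc cs s * (inc cs r * w * inc cs r) * inc cs s) < len cs (inc cs s * w * inc cs s) →
    inc cs r * w * inc cs r = inc cs s * w * inc cs s

/-- **(QP1) implies (QP2).** For every Coxeter system `(W, S)` and every `W`-conjugacy class
`K ⊆ I⁺` that satisfies (QP1), the class `K` also satisfies (QP2); so it is quasiparabolic. -/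
theorem result (cs : CoxeterSystem M W) (K : Set (WPlus cs)) (hK : IsClass cs K)
    (h : QP1 cs K) : QP2 cs K := by
  obtain ⟨x₀, hx₀, rfl⟩ := hK
  rintro r hr _ ⟨v₀, rfl⟩ _ ⟨i, rfl⟩ hlt hlt2
  set x : WPlus cs := inc cs v₀ * x₀ * (inc cs v₀)⁻¹ with hx
  have hxx : x * x = 1 := by
    rw [hx]
    calc inc cs v₀ * x₀ * (inc cs v₀)⁻¹ * (inc cs v₀ * x₀ * (inc cs v₀)⁻¹)
        = inc cs v₀ * (x₀ * x₀) * (inc cs v₀)⁻¹ := by group
      _ = 1 := by rw [hx₀]; group
  -- the automorphism
  set θ : W ≃* W := (x.right : MulAut W) with hθ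
  obtain ⟨d⟩ := Q2.CX.exists_diag (cs := cs) (θ := θ) x.right.2
  have hrr : x.right * x.right = 1 := by
    have := congrArg SemidirectProduct.right hxx
    simpa using this
  have hinv : ∀ v, θ (θ v) = v := by
    intro v
    have h1 : (x.right : MulAut W) * (x.right : MulAut W) = 1 := by
      rw [← Subgroup.coe_mul, hrr, Subgroup.coe_one]
    exact DFunLike.congr_fun h1 v
  have hw : θ x.left = x.left⁻¹ := by
    have h1 := congrArg SemidirectProduct.left hxx
    simp only [SemidirectProduct.mul_left, SemidirectProduct.one_left] at h1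
    have h2 : x.left * θ x.left = 1 := h1
    exact (eq_inv_of_mul_eq_one_right h2)
  have hr1 : ∀ t, cs.IsReflection t → (inc cs t)⁻¹ = inc cs t := by
    intro t ht; rw [← map_inv, ht.inv]
  -- conjugates
  have hconj : ∀ (u : W) (z : WPlus cs), z.right = x.right →
      (inc cs u * z * (inc cs u)⁻¹).left = u * z.left * (θ u)⁻¹ ∧
      (inc cs u * z * (inc cs u)⁻¹).right = x.right := by
    intro u z hz
    constructor
    · simp only [inc, SemidirectProduct.mul_left, SemidirectProduct.left_inl,
        SemidirectProduct.right_inl, map_one, MulAut.one_apply, SemidirectProduct.mul_right,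
        one_mul, SemidirectProduct.inv_left, inv_one, map_inv, hz]
      rfl
    · simp only [inc, SemidirectProduct.mul_right, SemidirectProduct.right_inl,
        SemidirectProduct.inv_right, one_mul, inv_one, mul_one, hz]
  have href : ∀ (t : W), cs.IsReflection t → ∀ z : WPlus cs, z.right = x.right →
      (inc cs t * z * inc cs t).left = t * z.left * θ t ∧
      (inc cs t * z * inc cs t).right = x.right := by
    intro t ht z hz
    have h1 := hconj t z hz
    rw [hr1 t ht] at h1
    have h2 : (θ t)⁻¹ = θ t := by rw [← map_inv, ht.inv]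
    rwa [h2] at h1
  have h1 := href r hr x rfl
  have hs := cs.isReflection_simple i
  have h2 := href (cs.simple i) hs x rfl
  have h3 := href (cs.simple i) hs _ h1.2
  have hcore := Q2.CX.qp2 θ d hinv x.left hw (by
    intro v t ht hlen
    set z : WPlus cs := inc cs v * x * (inc cs v)⁻¹ with hz
    have hzl := (hconj v x rfl).1
    have hzr := (hconj v x rfl).2
    rw [← hz] at hzl hzr
    have h1 := href t ht z hzr
    have hmem : z ∈ Set.range fun v : W => inc cs v * x₀ * (inc cs v)⁻¹ := by
      refine ⟨v * v₀, ?_⟩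
      simp only [hz, hx, map_mul]
      group
    have h2 := h t ht z hmem (by
      simp only [len]
      rw [h1.1, hzl]
      exact hlen)
    have h3 := congrArg SemidirectProduct.left h2
    rw [h1.1, hzl] at h3
    exact h3) r hr i (by
      simp only [len] at hlt
      rwa [h1.1] at hlt) (by
      simp only [len] at hlt2
      rwa [h3.1, h1.1, h2.1] at hlt2)
  apply SemidirectProduct.ext
  · rw [h1.1, h2.1]; exact hcore
  · rw [h1.2, h2.2]

end Pool.Agent.Results.MP_2f4918_al.Quasiparabolic
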